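import Pool.Agent.W47.KA.Defs
import Pool.Agent.W472.AC.Rel

/-!
KA1: small integer relation not vanishing at `1 / b` (helper505).
-/

set_option autoImplicit false

namespace Pool.Agent.W505.KA

open Finset Polynomial
open Pool.Agent.W47.KA
open Pool.Agent.W472.AC (ev Meas MeasP digit small_rel nonvanish)

theorem dom {p q : ℤ[X]} (h : ∀ i, |p.coeff i| ≤ q.coeff i) :
    ∀ j i, |(p ^ j).coeff i| ≤ (q ^ j).coeff i := by
  intro j
  induction j with
  | zero =>
    intro i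
    rw [pow_zero, pow_zero, coeff_one]
    split_ifs <;> simp
  | succ j ih =>
    intro i
    rw [pow_succ, pow_succ, coeff_mul, coeff_mul]
    refine (Finset.abs_sum_le_sum_abs _ _).trans (Finset.sum_le_sum fun x _ => ?_)
    rw [abs_mul]
    exact mul_le_mul (ih _) (h _) (abs_nonneg _) ((abs_nonneg _).trans (ih _))

theorem coeff_le_eval {q : ℤ[X]} (h : ∀ i, 0 ≤ q.coeff i) (i : ℕ) : q.coeff i ≤ q.eval 1 := by
  rw [eval_eq_sum_range]
  simp only [one_pow, mul_one]
  by_cases hi : i ≤ q.natDegree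
  · exact Finset.single_le_sum (f := fun i => q.coeff i) (fun i _ => h i)
      (Finset.mem_range.2 (by omega))
  · rw [coeff_eq_zero_of_natDegree_lt (by omega)]
    exact Finset.sum_nonneg fun i _ => h i

theorem coeff_SP (s : ℕ → ℤ) (L i : ℕ) :
    (SP s L).coeff i = if i ∈ Icc 1 L then s i else 0 := by
  unfold SP
  rw [finsetSum_coeff]
  simp only [coeff_C_mul_X_pow]
  rw [Finset.sum_ite_eq]

theorem pow_coeff {b : ℕ} (hb : 1 ≤ b) {s : ℕ → ℤ} (hs : ∀ i, |s i| ≤ b) (L r j : ℕ) (hj : j ≤ r)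
    (i : ℕ) : |(SP s L ^ j).coeff i| ≤ (((b * (L + 1)) ^ r : ℕ) : ℤ) := by
  have h1 : ∀ i, |(SP s L).coeff i| ≤ (SP (fun i => |s i|) L).coeff i := by
    intro i
    rw [coeff_SP, coeff_SP]
    split_ifs <;> simp
  have h2 := dom h1 j i
  have h3 : ∀ i, 0 ≤ (SP (fun i => |s i|) L ^ j).coeff i := fun i =>
    (abs_nonneg _).trans (dom h1 j i)
  refine h2.trans ((coeff_le_eval h3 i).trans ?_)
  rw [eval_pow]
  have h4 : (SP (fun i => |s i|) L).eval 1 ≤ b * (L + 1) := by
    unfold SP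
    rw [eval_finsetSum]
    simp only [eval_mul, eval_C, eval_pow, eval_X, one_pow, mul_one]
    calc ∑ i ∈ Icc 1 L, |s i| ≤ ∑ _i ∈ Icc 1 L, (b : ℤ) := Finset.sum_le_sum fun i _ => hs i
      _ = L * b := by simp
      _ ≤ b * (L + 1) := by nlinarith [(Int.natCast_nonneg b : (0 : ℤ) ≤ b)]
  have h5 : 0 ≤ (SP (fun i => |s i|) L).eval 1 := by
    unfold SP
    rw [eval_finsetSum]
    refine Finset.sum_nonneg fun i _ => ?_
    simp only [eval_mul, eval_C, eval_pow, eval_X, one_pow, mul_one]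
    exact abs_nonneg _
  calc (SP (fun i => |s i|) L).eval 1 ^ j ≤ ((b : ℤ) * (L + 1)) ^ j := pow_le_pow_left₀ h5 h4 j
    _ ≤ ((b : ℤ) * (L + 1)) ^ r := by
      refine pow_le_pow_right₀ ?_ hj
      have : (1 : ℤ) ≤ b := by exact_mod_cast hb
      nlinarith [(Int.natCast_nonneg L : (0 : ℤ) ≤ L)]
    _ = _ := by push_cast; ring

theorem SPQ_eq (s : ℕ → ℤ) (L : ℕ) : SPQ s L = (SP s L).map (Int.castRingHom ℚ) := by
  unfold SPQ SP
  rw [Polynomial.map_sum]
  refine Finset.sum_congr rfl fun i _ => ?_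
  rw [Polynomial.map_mul, Polynomial.map_pow, map_C, map_X]
  rfl

theorem ka1 : S_KA1 := by
  intro r k δ L b κ s hb hs hrel hκ
  obtain ⟨P, hP, hPr, hPk, hX⟩ := hrel
  have hne : (fun j : Fin (r + 1) => P.coeff j) ≠ 0 := by
    intro h
    apply hP
    ext1 j
    by_cases hj : j < r + 1
    · exact congrFun h ⟨j, hj⟩
    · rw [coeff_eq_zero_of_natDegree_lt (by omega), coeff_zero]
  have hB : 1 ≤ (b * (L + 1)) ^ r := Nat.one_le_pow _ _ (by positivity)
  obtain ⟨t, ht0, ht1, ht2, ht3⟩ := small_rel r k δ (L + 1) ((b * (L + 1)) ^ r) κ hB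
    (fun j => SP s L ^ (j : ℕ)) (fun j i => pow_coeff (by omega) hs L r j (by omega) i)
    (fun j => P.coeff j) hne (fun j => hPk j) (by
      have e : ∑ j : Fin (r + 1), P.coeff j * ((SP s L) ^ (j : ℕ)).map (Int.castRingHom ℚ) =
          P.eval (SPQ s L) := by
        rw [eval_eq_sum_range' (show P.natDegree < r + 1 by omega), Finset.sum_range, SPQ_eq]
        refine Finset.sum_congr rfl fun j _ => ?_
        rw [Polynomial.map_pow]
      rw [e]; exact hX) hκ
  exact nonvanish r (L + 1) b _ hb (fun j => SP s L ^ (j : ℕ)) (k + δ) t ht0 ht1 ht2 ht3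

end Pool.Agent.W505.KA
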